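import Pool.Agent.Helper77.PPS.GoalsN
import Pool.Agent.Helper94.PP.GoalsA1
import Pool.Agent.Helper4.RS.PAR
import Pool.Agent.Helper62.RS.LBD
import Pool.Agent.Helper32.PP.EXP
import Pool.Agent.Helper95.PP.CNT

/-!
# Project PP, part A3, packet PPS-N_REC
-/

namespace Pool.Agent.Helper56.PPS

open NumberField Polynomial Module IsDedekindDomain
open Pool.Agent.Helper38.RS (hf Gf absN S_REP S_GFB S_LSM)
open Pool.Agent.Helper94.PP (A1_KEY A1_WTE A1_UNF gw Wt)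

/-- the weight -/
noncomputable def wZ (Z : ℝ) : ℝ → ℝ := fun x ↦ Real.exp (-x / Z)

/-- the exponent -/
noncomputable def ex (F : Type) [Field F] [NumberField F] : ℝ := 1 - 1 / (2 * (finrank ℚ F : ℝ))

section

variable {F : Type} [Field F] [NumberField F]

theorem finrank_one_le : (1 : ℝ) ≤ (finrank ℚ F : ℝ) := by
  have : 0 < finrank ℚ F := finrank_pos
  exact_mod_cast this

theorem ex_nonneg : 0 ≤ ex F := by
  have h := finrank_one_le (F := F)
  unfold ex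
  have : 1 / (2 * (finrank ℚ F : ℝ)) ≤ 1 := by
    rw [div_le_one (by linarith)]
    linarith
  linarith

theorem ex_le_one : ex F ≤ 1 := by
  have h := finrank_one_le (F := F)
  unfold ex
  have : 0 ≤ 1 / (2 * (finrank ℚ F : ℝ)) := by positivity
  linarith

theorem rex : (finrank ℚ F : ℝ) * ex F + 1 = (finrank ℚ F : ℝ) + 1 / 2 := by
  have h := finrank_one_le (F := F)
  have h0 : (finrank ℚ F : ℝ) ≠ 0 := by positivity
  unfold ex
  field_simp
  ring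

theorem gw_zero (w : ℝ → ℝ) : gw w (0 : F) = 0 := by
  simp [gw, hf, Pool.Agent.Helper4.RS.absN_zero]

theorem gw_bounds (h5 : S_GFB) (Z : ℝ) (hZ : 0 < Z) (α : 𝓞 F) :
    0 ≤ gw (wZ Z) (α : F) ∧ gw (wZ Z) (α : F) ≤ 1 := by
  by_cases h : α = 0
  · subst h
    have : ((0 : 𝓞 F) : F) = 0 := by simp
    rw [this, gw_zero]
    exact ⟨le_refl _, zero_le_one⟩
  · obtain ⟨_, _, _, hp⟩ := h5 F
    have hα : (α : F) ≠ 0 := by
      simpa using h
    obtain ⟨h3, h4⟩ := hp (α : F) hα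
    have hG : 0 < Gf (α : F) := lt_of_lt_of_le h3 h4
    have hN : 0 ≤ absN (α : F) := abs_nonneg _
    have h5 : 0 ≤ wZ Z (absN (α : F)) := (Real.exp_pos _).le
    have h6 : wZ Z (absN (α : F)) ≤ 1 := by
      unfold wZ
      rw [Real.exp_le_one_iff]
      exact div_nonpos_of_nonpos_of_nonneg (by linarith) hZ.le
    have h7 : hf (α : F) / Gf (α : F) ≤ 1 := (div_le_one hG).2 h4
    have h8 : 0 ≤ hf (α : F) / Gf (α : F) := (div_pos h3 hG).le
    exact ⟨mul_nonneg h8 h5, mul_le_one₀ h7 h5 h6⟩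

theorem summable_id (Z : ℝ) (hZ : 0 < Z) :
    Summable fun I : {I : Ideal (𝓞 F) // I ≠ ⊥} ↦ wZ Z (Ideal.absNorm I.1) := by
  have h := (Pool.Agent.Helper32.PP.a2_exp Pool.Agent.Helper95.PP.a2_cnt F).1 Z hZ
  exact h.comp_injective Subtype.val_injective

theorem summable_abs (Z : ℝ) (hZ : 0 < Z) :
    Summable fun I : {I : Ideal (𝓞 F) // I ≠ ⊥} ↦ |wZ Z (Ideal.absNorm I.1)| :=
  (summable_id Z hZ).abs

theorem summable_gw (h3 : A1_UNF) (Z : ℝ) (hZ : 0 < Z) :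
    Summable fun α : 𝓞 F ↦ gw (wZ Z) (α : F) := by
  have h := (h3 F (wZ Z) (summable_abs Z hZ) (fun _ ↦ 1) (by simp) ⊤).1
  have h' : Summable ((fun α : 𝓞 F ↦ gw (wZ Z) (α : F)) ∘
      ((↑) : {α : 𝓞 F // α ≠ 0 ∧ α ∈ (⊤ : Ideal (𝓞 F))} → 𝓞 F)) := h.of_abs
  refine (Function.Injective.summable_iff Subtype.val_injective ?_).1 h'
  intro x hx
  have : x = 0 := by
    by_contra hne
    exact hx ⟨⟨x, hne, Submodule.mem_top⟩, rfl⟩
  subst this
  have : ((0 : 𝓞 F) : F) = 0 := by simp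
  rw [this, gw_zero]

/-- the sum over the lattice -/
noncomputable def SL (Λ : Ideal (𝓞 F)) (Z : ℝ) : ℝ := ∑' β : Λ, gw (wZ Z) ((β : 𝓞 F) : F)

/-- the bound for one translation -/
theorem shift_bound [IsTotallyComplex F] (h1 : A1_KEY) (h2 : A1_WTE) (h3 : A1_UNF)
    (h5 : S_GFB) (h6 : S_LSM) (v : 𝓞 F) :
    ∃ K : ℝ, 0 ≤ K ∧ ∀ Z : ℝ, 1 ≤ Z → ∀ (T : Type) (j : T → 𝓞 F), Function.Injective j →
      |(∑' t, gw (wZ Z) ((v + j t : 𝓞 F) : F)) - ∑' t, gw (wZ Z) ((j t : 𝓞 F) : F)| ≤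
        K * Z ^ ex F := by
  classical
  obtain ⟨C, hC0, hC⟩ := h1 F (ex F) ex_nonneg ex_le_one
  set r : ℝ := (finrank ℚ F : ℝ) * ex F + 1 with hr
  have hL := h6 F r (by rw [hr, rex]; linarith)
  set D : ℝ := C * house (v : F) ^ (finrank ℚ F + 1) with hD
  have hD0 : 0 ≤ D := mul_nonneg hC0 (pow_nonneg (house_nonneg _) _)
  set B : 𝓞 F → ℝ := fun β ↦ (if β = 0 then 1 else D * house (β : F) ^ (-r)) +
    (if β = -v then 1 else 0) with hB
  have hB1 : Summable fun β : 𝓞 F ↦ (if β = 0 then (1 : ℝ) else D * house (β : F) ^ (-r)) := by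
    have hA : Summable fun β : 𝓞 F ↦ (if β = 0 then (0 : ℝ) else D * house (β : F) ^ (-r)) := by
      have hL' : Summable ((fun β : 𝓞 F ↦ (if β = 0 then (0 : ℝ) else
          D * house (β : F) ^ (-r))) ∘ ((↑) : {α : 𝓞 F // α ≠ 0} → 𝓞 F)) := by
        refine (hL.mul_left D).congr ?_
        rintro ⟨b, hb⟩
        simp [hb]
      refine (Function.Injective.summable_iff Subtype.val_injective ?_).1 hL'
      intro x hx
      have : x = 0 := by
        by_contra hne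
        exact hx ⟨⟨x, hne⟩, rfl⟩
      simp [this]
    have hD : Summable fun β : 𝓞 F ↦ (if β = 0 then (1 : ℝ) else 0) := by
      refine summable_of_ne_finset_zero (s := {0}) ?_
      intro b hb
      simp at hb
      simp [hb]
    refine (hA.add hD).congr ?_
    intro b
    by_cases hb : b = 0 <;> simp [hb]
  have hB2 : Summable fun β : 𝓞 F ↦ (if β = -v then (1 : ℝ) else 0) := by
    refine summable_of_ne_finset_zero (s := {-v}) ?_
    intro b hb
    simp at hb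
    simp [hb]
  have hBs : Summable B := hB1.add hB2
  have e1 : ∀ β : 𝓞 F, 0 ≤ (if β = 0 then (1 : ℝ) else D * house (β : F) ^ (-r)) := by
    intro β
    split_ifs
    · exact zero_le_one
    · exact mul_nonneg hD0 (Real.rpow_nonneg (house_nonneg _) _)
  have e2 : ∀ β : 𝓞 F, 0 ≤ (if β = -v then (1 : ℝ) else 0) := by
    intro β
    split_ifs
    · exact zero_le_one
    · exact le_refl _
  have hB0 : ∀ β, 0 ≤ B β := fun β ↦ add_nonneg (e1 β) (e2 β)
  refine ⟨∑' β : 𝓞 F, B β, tsum_nonneg hB0, fun Z hZ T j hj ↦ ?_⟩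
  have hZ0 : 0 < Z := by linarith
  have hA1 : 1 ≤ Z ^ ex F := Real.one_le_rpow hZ ex_nonneg
  have hG : Summable fun α : 𝓞 F ↦ gw (wZ Z) (α : F) := summable_gw h3 Z hZ0
  have hG1 : Summable fun t : T ↦ gw (wZ Z) ((v + j t : 𝓞 F) : F) := by
    have : Function.Injective fun t : T ↦ v + j t := by
      intro a b hab
      exact hj (add_left_cancel hab)
    exact hG.comp_injective this
  have hG2 : Summable fun t : T ↦ gw (wZ Z) ((j t : 𝓞 F) : F) := hG.comp_injective hj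
  rw [← hG1.tsum_sub hG2]
  have key : ∀ β : 𝓞 F, |gw (wZ Z) ((v + β : 𝓞 F) : F) - gw (wZ Z) (β : F)| ≤
      B β * Z ^ ex F := by
    intro β
    have b1 := gw_bounds h5 Z hZ0 (v + β)
    have b2 := gw_bounds h5 Z hZ0 β
    have b3 : |gw (wZ Z) ((v + β : 𝓞 F) : F) - gw (wZ Z) (β : F)| ≤ 1 := by
      rw [abs_le]
      constructor <;> linarith [b1.1, b1.2, b2.1, b2.2]
    have b4 : 1 ≤ B β → |gw (wZ Z) ((v + β : 𝓞 F) : F) - gw (wZ Z) (β : F)| ≤
        B β * Z ^ ex F := fun h ↦ b3.trans (by nlinarith)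
    by_cases hb0 : β = 0
    · apply b4
      have := e2 β
      simp only [hB]
      rw [if_pos hb0]
      linarith
    · by_cases hbv : β = -v
      · apply b4
        have := e1 β
        simp only [hB]
        rw [if_pos hbv]
        linarith
      · have hbv' : β + v ≠ 0 := by
          intro h
          exact hbv (eq_neg_of_add_eq_zero_left h)
        by_cases hv : v = 0
        · subst hv
          have : (0 + β : 𝓞 F) = β := zero_add β
          rw [this, sub_self, abs_zero]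
          exact mul_nonneg (hB0 β) (by linarith)
        have k := hC (Z ^ ex F) (wZ Z) (h2 (ex F) Z ex_nonneg ex_le_one hZ0) v β hv hb0 hbv'
        rw [abs_sub_comm, add_comm v β]
        refine k.trans (le_of_eq ?_)
        simp only [hB]
        rw [if_neg hb0, if_neg hbv, add_zero, hD]
        ring
  have hBT : Summable fun t : T ↦ B (j t) * Z ^ ex F := (hBs.comp_injective hj).mul_right _
  have hab : Summable fun t : T ↦
      |gw (wZ Z) ((v + j t : 𝓞 F) : F) - gw (wZ Z) ((j t : 𝓞 F) : F)| :=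
    Summable.of_nonneg_of_le (fun _ ↦ abs_nonneg _) (fun t ↦ key (j t)) hBT
  calc |∑' t : T, (gw (wZ Z) ((v + j t : 𝓞 F) : F) - gw (wZ Z) ((j t : 𝓞 F) : F))|
      ≤ ∑' t : T, |gw (wZ Z) ((v + j t : 𝓞 F) : F) - gw (wZ Z) ((j t : 𝓞 F) : F)| := by
        have := norm_tsum_le_tsum_norm (f := fun t : T ↦
          (gw (wZ Z) ((v + j t : 𝓞 F) : F) - gw (wZ Z) ((j t : 𝓞 F) : F))) (by simpa using hab)
        simpa using this
    _ ≤ ∑' t : T, B (j t) * Z ^ ex F := hab.tsum_le_tsum (fun t ↦ key (j t)) hBT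
    _ = (∑' t : T, B (j t)) * Z ^ ex F := tsum_mul_right
    _ ≤ (∑' β : 𝓞 F, B β) * Z ^ ex F := by
        refine mul_le_mul_of_nonneg_right ?_ (by linarith)
        exact Summable.tsum_le_tsum_of_inj j hj (fun x _ ↦ hB0 x) (fun x ↦ le_rfl)
          (hBs.comp_injective hj) hBs

/-- homogeneity -/
theorem absN_nat_mul (B : ℕ) (α : F) : absN ((B : F) * α) = (B : ℝ) ^ finrank ℚ F * absN α := by
  have h : Algebra.norm ℚ ((B : F) * α) = (B : ℚ) ^ finrank ℚ F * Algebra.norm ℚ α := by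
    rw [map_mul]
    have : Algebra.norm ℚ (B : F) = (B : ℚ) ^ finrank ℚ F := by
      have := Algebra.norm_algebraMap (S := F) (B : ℚ)
      simpa using this
    rw [this]
  unfold absN
  rw [h]
  push_cast
  rw [abs_mul, abs_of_nonneg (by positivity : (0 : ℝ) ≤ (B : ℝ) ^ finrank ℚ F)]

theorem hf_nat_mul (B : ℕ) (hB : 1 ≤ B) (α : F) : hf ((B : F) * α) = hf α := by
  unfold hf
  rw [absN_nat_mul, house_nat_mul, mul_pow, mul_pow, ← pow_mul, mul_comm 3 (finrank ℚ F)]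
  have hB0 : (B : ℝ) ^ (finrank ℚ F * 3) ≠ 0 := by
    have : (B : ℝ) ≠ 0 := by exact_mod_cast (by omega : B ≠ 0)
    positivity
  exact mul_div_mul_left _ _ hB0

theorem Gf_nat_mul (B : ℕ) (hB : 1 ≤ B) (α : F) : Gf ((B : F) * α) = Gf α := by
  unfold Gf
  refine tsum_congr fun ε ↦ ?_
  rw [← hf_nat_mul B hB ((ε : F) * α)]
  congr 1
  ring

theorem gw_nat_mul (B : ℕ) (hB : 1 ≤ B) (Z : ℝ) (α : F) :
    gw (wZ ((B : ℝ) ^ finrank ℚ F * Z)) ((B : F) * α) = gw (wZ Z) α := by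
  unfold gw
  rw [hf_nat_mul B hB, Gf_nat_mul B hB, absN_nat_mul]
  congr 1
  unfold wZ
  congr 1
  have hB0 : (B : ℝ) ^ finrank ℚ F ≠ 0 := by
    have : (B : ℝ) ≠ 0 := by exact_mod_cast (by omega : B ≠ 0)
    positivity
  rw [← mul_neg]
  exact mul_div_mul_left _ _ hB0

/-- the decomposition of a lattice modulo `B` -/
theorem exists_split (Λ : Ideal (𝓞 F)) (hΛ : Λ ≠ ⊥) (B : ℕ) (hB : 1 ≤ B) :
    ∃ (Q : Type) (_ : Fintype Q) (s : Q → Λ) (e : Q × Λ ≃ Λ),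
      Fintype.card Q = B ^ finrank ℚ F ∧ ∀ p, ((e p : Λ) : 𝓞 F) = s p.1 + (B : 𝓞 F) * (p.2 : 𝓞 F) := by
  classical
  have hB0 : NeZero B := ⟨by omega⟩
  let b := Ideal.selfBasis (RingOfIntegers.basis F) Λ hΛ
  let Q := Free.ChooseBasisIndex ℤ (𝓞 F) → ZMod B
  let s : Q → Λ := fun q ↦ b.equivFun.symm (fun i ↦ ((q i).val : ℤ))
  have hs : ∀ q i, ((b.equivFun (s q) i : ℤ) : ZMod B) = q i := by
    intro q i
    have h1 : b.equivFun (s q) = fun i ↦ ((q i).val : ℤ) := LinearEquiv.apply_symm_apply _ _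
    rw [h1]
    simp
  have hmem : ∀ β : Λ, (B : 𝓞 F) * (β : 𝓞 F) ∈ Λ := fun β ↦ Ideal.mul_mem_left _ _ β.2
  have hmul : ∀ β : Λ, (⟨(B : 𝓞 F) * (β : 𝓞 F), hmem β⟩ : Λ) = (B : ℤ) • β := by
    intro β
    apply Subtype.ext
    simp
  let f : Q × Λ → Λ := fun p ↦ s p.1 + (B : ℤ) • p.2
  have hf1 : ∀ p i, ((b.equivFun (f p) i : ℤ) : ZMod B) = p.1 i := by
    intro p i
    simp only [f, map_add, map_smul, Pi.add_apply, Pi.smul_apply, Int.cast_add, hs]
    simp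
  have hbij : Function.Bijective f := by
    constructor
    · rintro ⟨q, β⟩ ⟨q', β'⟩ h
      have hq : q = q' := by
        funext i
        have e1 := hf1 (q, β) i
        have e2 := hf1 (q', β') i
        rw [h] at e1
        exact e1.symm.trans e2
      subst hq
      have h2 : (B : ℤ) • β = (B : ℤ) • β' := add_left_cancel h
      have h3 : β = β' := by
        have h4 : (B : ℤ) • b.equivFun β = (B : ℤ) • b.equivFun β' := by
          rw [← map_smul, ← map_smul, h2]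
        apply b.equivFun.injective
        funext i
        have h5 := congrFun h4 i
        simp only [Pi.smul_apply, smul_eq_mul] at h5
        exact mul_left_cancel₀ (by exact_mod_cast (by omega : B ≠ 0)) h5
      rw [h3]
    · intro α
      let q : Q := fun i ↦ ((b.equivFun α i : ℤ) : ZMod B)
      have hdvd : ∀ i, (B : ℤ) ∣ b.equivFun (α - s q) i := by
        intro i
        rw [← ZMod.intCast_zmod_eq_zero_iff_dvd _ B]
        rw [map_sub, Pi.sub_apply, Int.cast_sub, hs]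
        simp [q]
      choose c hc using hdvd
      refine ⟨(q, b.equivFun.symm c), ?_⟩
      have h1 : (B : ℤ) • b.equivFun.symm c = α - s q := by
        apply b.equivFun.injective
        rw [map_smul, LinearEquiv.apply_symm_apply]
        funext i
        rw [hc i]
        simp
      show s q + (B : ℤ) • b.equivFun.symm c = α
      rw [h1]
      abel
  refine ⟨Q, inferInstance, s, Equiv.ofBijective f hbij, ?_, ?_⟩
  · show Fintype.card (Free.ChooseBasisIndex ℤ (𝓞 F) → ZMod B) = _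
    rw [Fintype.card_fun, ZMod.card, ← Module.finrank_eq_card_chooseBasisIndex,
      RingOfIntegers.rank]
  · intro p
    have : (Equiv.ofBijective f hbij) p = s p.1 + (B : ℤ) • p.2 := rfl
    rw [this]
    simp

theorem lat_bound [IsTotallyComplex F] (h1 : A1_KEY) (h2 : A1_WTE) (h3 : A1_UNF)
    (h5 : S_GFB) (h6 : S_LSM) (Λ : Ideal (𝓞 F)) (hΛ : Λ ≠ ⊥) (B : ℕ) (hB : 1 ≤ B) :
    ∃ C : ℝ, 0 ≤ C ∧ ∀ Z : ℝ, 1 ≤ Z →
      |SL Λ ((B : ℝ) ^ finrank ℚ F * Z) - (B : ℝ) ^ finrank ℚ F * SL Λ Z| ≤ C * Z ^ ex F := by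
  classical
  obtain ⟨Q, _, s, e, hcard, he⟩ := exists_split Λ hΛ B hB
  choose K hK0 hK using fun v : 𝓞 F ↦ shift_bound h1 h2 h3 h5 h6 v
  have hB1 : (1 : ℝ) ≤ (B : ℝ) ^ finrank ℚ F := one_le_pow₀ (by exact_mod_cast hB)
  have hBn0 : (0 : ℝ) ≤ (B : ℝ) ^ finrank ℚ F := by linarith
  refine ⟨∑ q : Q, K (s q) * ((B : ℝ) ^ finrank ℚ F) ^ ex F,
    Finset.sum_nonneg fun q _ ↦ mul_nonneg (hK0 _) (Real.rpow_nonneg hBn0 _), fun Z hZ ↦ ?_⟩
  set Y : ℝ := (B : ℝ) ^ finrank ℚ F * Z with hY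
  have hY1 : 1 ≤ Y := by rw [hY]; nlinarith
  have hY0 : 0 < Y := by linarith
  have hG : Summable fun α : 𝓞 F ↦ gw (wZ Y) (α : F) := summable_gw h3 Y hY0
  have hGΛ : Summable fun α : Λ ↦ gw (wZ Y) ((α : 𝓞 F) : F) :=
    hG.comp_injective Subtype.val_injective
  have hGe : Summable fun p : Q × Λ ↦
      gw (wZ Y) (((s p.1 : 𝓞 F) + (B : 𝓞 F) * (p.2 : 𝓞 F) : 𝓞 F) : F) := by
    have := e.summable_iff.2 hGΛ
    refine this.congr fun p ↦ ?_
    show gw (wZ Y) ((((e p : Λ) : 𝓞 F)) : F) = _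
    rw [he p]
  have hS1 : SL Λ Y = ∑ q : Q, ∑' β : Λ,
      gw (wZ Y) (((s q : 𝓞 F) + (B : 𝓞 F) * (β : 𝓞 F) : 𝓞 F) : F) := by
    unfold SL
    rw [← e.tsum_eq (fun α : Λ ↦ gw (wZ Y) ((α : 𝓞 F) : F))]
    have : ∑' p : Q × Λ, gw (wZ Y) (((e p : Λ) : 𝓞 F) : F) =
        ∑' p : Q × Λ, gw (wZ Y) (((s p.1 : 𝓞 F) + (B : 𝓞 F) * (p.2 : 𝓞 F) : 𝓞 F) : F) :=
      tsum_congr fun p ↦ by rw [he p]
    rw [this, hGe.tsum_prod, tsum_fintype]
  have hinj : Function.Injective fun β : Λ ↦ (B : 𝓞 F) * (β : 𝓞 F) := by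
    intro x y hxy
    have hB0 : (B : 𝓞 F) ≠ 0 := by exact_mod_cast (by omega : B ≠ 0)
    exact Subtype.ext (mul_left_cancel₀ hB0 hxy)
  have hS2 : ∑' β : Λ, gw (wZ Y) (((B : 𝓞 F) * (β : 𝓞 F) : 𝓞 F) : F) = SL Λ Z := by
    unfold SL
    refine tsum_congr fun β ↦ ?_
    have : (((B : 𝓞 F) * (β : 𝓞 F) : 𝓞 F) : F) = (B : F) * ((β : 𝓞 F) : F) := by
      push_cast
      rfl
    rw [this, hY, gw_nat_mul B hB]
  have hS3 : (B : ℝ) ^ finrank ℚ F * SL Λ Z = ∑ _q : Q, SL Λ Z := by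
    rw [Finset.sum_const, Finset.card_univ, hcard, nsmul_eq_mul]
    push_cast
    rfl
  rw [hS1, hS3, ← Finset.sum_sub_distrib]
  refine (Finset.abs_sum_le_sum_abs _ _).trans ?_
  rw [Finset.sum_mul]
  refine Finset.sum_le_sum fun q _ ↦ ?_
  have hk := hK (s q) Y hY1 Λ (fun β ↦ (B : 𝓞 F) * (β : 𝓞 F)) hinj
  rw [hS2] at hk
  refine hk.trans (le_of_eq ?_)
  rw [hY, Real.mul_rpow hBn0 (by linarith), mul_assoc]

/-- the unfolding -/
theorem SL_eq (h3 : A1_UNF) (Λ : Ideal (𝓞 F)) (Z : ℝ) (hZ : 0 < Z) :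
    SL Λ Z = ∑' J : {J : Ideal (𝓞 F) // J ≠ ⊥ ∧ J ≤ Λ ∧ J.IsPrincipal},
      wZ Z (Ideal.absNorm J.1) := by
  have h := (h3 F (wZ Z) (summable_abs Z hZ) (fun _ ↦ 1) (by simp) Λ).2
  simp only [one_mul] at h
  have h' : ∑' α : {α : 𝓞 F // α ≠ 0 ∧ α ∈ Λ}, gw (wZ Z) ((α.1 : 𝓞 F) : F) =
      ∑' J : {J : Ideal (𝓞 F) // J ≠ ⊥ ∧ J ≤ Λ ∧ J.IsPrincipal},
        wZ Z (Ideal.absNorm J.1) := by
    have h2 := h
    rw [← Complex.ofReal_tsum, ← Complex.ofReal_tsum] at h2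
    exact_mod_cast h2
  rw [← h']
  unfold SL
  have a1 : ∑' α : {α : 𝓞 F // α ≠ 0 ∧ α ∈ Λ}, gw (wZ Z) ((α.1 : 𝓞 F) : F) =
      ∑' α : 𝓞 F, Set.indicator {α : 𝓞 F | α ≠ 0 ∧ α ∈ Λ} (fun α ↦ gw (wZ Z) (α : F)) α :=
    tsum_subtype {α : 𝓞 F | α ≠ 0 ∧ α ∈ Λ} (fun α ↦ gw (wZ Z) (α : F))
  have a2 : ∑' β : Λ, gw (wZ Z) ((β : 𝓞 F) : F) =
      ∑' α : 𝓞 F, Set.indicator {α : 𝓞 F | α ∈ Λ} (fun α ↦ gw (wZ Z) (α : F)) α :=
    tsum_subtype {α : 𝓞 F | α ∈ Λ} (fun α ↦ gw (wZ Z) (α : F))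
  rw [a1, a2]
  refine tsum_congr fun α ↦ ?_
  by_cases h0 : α = 0
  · subst h0
    simp only [Set.indicator]
    split_ifs <;> simp [gw_zero]
  · by_cases hm : α ∈ Λ <;> simp [Set.indicator, h0, hm]

/-- the part of one class -/
theorem class_part (c : Ideal (𝓞 F)) (hc : c ≠ ⊥) (Z : ℝ) :
    ∑' J : {J : Ideal (𝓞 F) // J ≠ ⊥ ∧ (J * c).IsPrincipal}, wZ Z (Ideal.absNorm J.1) =
      ∑' J : {J : Ideal (𝓞 F) // J ≠ ⊥ ∧ J ≤ c ∧ J.IsPrincipal},
        wZ ((Ideal.absNorm c : ℝ) * Z) (Ideal.absNorm J.1) := by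
  have hN := Pool.Agent.Helper62.RS.absNorm_one_le hc
  have hN0 : (0 : ℝ) < (Ideal.absNorm c : ℝ) := by linarith
  let e0 : {J : Ideal (𝓞 F) // J ≠ ⊥ ∧ (J * c).IsPrincipal} →
      {J : Ideal (𝓞 F) // J ≠ ⊥ ∧ J ≤ c ∧ J.IsPrincipal} :=
    fun J => ⟨J.1 * c, mul_ne_zero J.2.1 hc, Ideal.mul_le_right, J.2.2⟩
  have hbij : Function.Bijective e0 := by
    constructor
    · intro J J' hJ
      apply Subtype.ext
      have : J.1 * c = J'.1 * c := congrArg Subtype.val hJ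
      exact mul_right_cancel₀ hc this
    · rintro ⟨J', hJ1, hJ2, hJ3⟩
      obtain ⟨J, rfl⟩ := Ideal.dvd_iff_le.2 hJ2
      refine ⟨⟨J, ?_, ?_⟩, ?_⟩
      · rintro rfl
        exact hJ1 (by rw [Ideal.mul_bot])
      · rw [mul_comm]; exact hJ3
      · apply Subtype.ext
        show J * c = c * J
        rw [mul_comm]
  have htsum := (Equiv.ofBijective e0 hbij).tsum_eq
    (fun J : {J : Ideal (𝓞 F) // J ≠ ⊥ ∧ J ≤ c ∧ J.IsPrincipal} =>
      wZ ((Ideal.absNorm c : ℝ) * Z) (Ideal.absNorm J.1))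
  rw [← htsum]
  refine tsum_congr fun J ↦ ?_
  show wZ Z (Ideal.absNorm J.1) = wZ ((Ideal.absNorm c : ℝ) * Z) (Ideal.absNorm (J.1 * c))
  rw [map_mul, Nat.cast_mul]
  unfold wZ
  congr 1
  rw [mul_comm (Ideal.absNorm J.1 : ℝ) (Ideal.absNorm c : ℝ), ← mul_neg]
  exact (mul_div_mul_left _ _ hN0.ne').symm

/-- **Packet PPS-N_REC.** -/
theorem n_rec (h1 : A1_KEY) (h2 : A1_WTE) (h3 : A1_UNF) (h4 : S_REP) (h5 : S_GFB)
    (h6 : S_LSM) : Pool.Agent.Helper77.PPS.N_REC := by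
  classical
  intro F _ _ _ B hB
  obtain ⟨h, c, hc, hrep⟩ := h4 F ⊤ (by simp)
  choose C hC0 hC using fun j : Fin h ↦ lat_bound h1 h2 h3 h5 h6 (c j) (hc j).1 B hB
  have hB1 : (1 : ℝ) ≤ (B : ℝ) ^ finrank ℚ F := one_le_pow₀ (by exact_mod_cast hB)
  have hdec : ∀ Z : ℝ, 0 < Z →
      ∑' I : {I : Ideal (𝓞 F) // I ≠ ⊥}, wZ Z (Ideal.absNorm I.1) =
        ∑ j, SL (c j) ((Ideal.absNorm (c j) : ℝ) * Z) := by
    intro Z hZ
    have hs := summable_id (F := F) Z hZ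
    have hpt : ∀ J : {J : Ideal (𝓞 F) // J ≠ ⊥}, wZ Z (Ideal.absNorm J.1) =
        ∑ j, (if (J.1 * c j).IsPrincipal then wZ Z (Ideal.absNorm J.1) else 0) := by
      intro J
      obtain ⟨j0, hj0, huniq⟩ := hrep J.1 J.2
      rw [Finset.sum_eq_single j0]
      · rw [if_pos hj0]
      · intro j _ hj
        rw [if_neg (fun hcon => hj (huniq j hcon))]
      · intro hcon; exact absurd (Finset.mem_univ _) hcon
    rw [tsum_congr hpt, Summable.tsum_finsetSum]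
    · refine Finset.sum_congr rfl (fun j _ => ?_)
      have hN := Pool.Agent.Helper62.RS.absNorm_one_le (hc j).1
      rw [Pool.Agent.Helper62.RS.tsum_sub_ite (β := Ideal (𝓞 F)) (fun J => J ≠ ⊥)
        (fun J => (J * c j).IsPrincipal) (fun J => wZ Z (Ideal.absNorm J)),
        class_part (c j) (hc j).1 Z, SL_eq h3 _ _ (by positivity)]
    · intro j _
      refine Summable.of_norm_bounded hs.norm (fun J => ?_)
      split_ifs
      · exact le_rfl
      · rw [norm_zero]; exact norm_nonneg _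
  refine ⟨∑ j, C j * (Ideal.absNorm (c j) : ℝ) ^ ex F, fun Z hZ ↦ ⟨?_, ?_⟩⟩
  · exact summable_id Z (by linarith)
  · have hZ0 : 0 < Z := by linarith
    have hBZ : 0 < (B : ℝ) ^ finrank ℚ F * Z := by positivity
    have e1 := hdec _ hBZ
    have e2 := hdec _ hZ0
    have hgoal : |∑' I : {I : Ideal (𝓞 F) // I ≠ ⊥}, wZ ((B : ℝ) ^ finrank ℚ F * Z)
          (Ideal.absNorm I.1) - (B : ℝ) ^ finrank ℚ F *
          ∑' I : {I : Ideal (𝓞 F) // I ≠ ⊥}, wZ Z (Ideal.absNorm I.1)| ≤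
        (∑ j, C j * (Ideal.absNorm (c j) : ℝ) ^ ex F) * Z ^ ex F := by
      rw [e1, e2, Finset.mul_sum, ← Finset.sum_sub_distrib]
      refine (Finset.abs_sum_le_sum_abs _ _).trans ?_
      rw [Finset.sum_mul]
      refine Finset.sum_le_sum fun j _ ↦ ?_
      have hN := Pool.Agent.Helper62.RS.absNorm_one_le (hc j).1
      have hk := hC j ((Ideal.absNorm (c j) : ℝ) * Z) (by nlinarith)
      have e3 : (B : ℝ) ^ finrank ℚ F * ((Ideal.absNorm (c j) : ℝ) * Z) =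
          (Ideal.absNorm (c j) : ℝ) * ((B : ℝ) ^ finrank ℚ F * Z) := by ring
      rw [e3, Real.mul_rpow (by linarith) hZ0.le] at hk
      refine hk.trans (le_of_eq ?_)
      ring
    exact hgoal

end

end Pool.Agent.Helper56.PPS
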